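import Mathlib

/-!
Length functions: `IsLen ν` collects the axioms of a length (sum of the absolute values of the
coefficients, or the usual absolute value); a determinant is bounded by the product over the rows
of the sums of the lengths of the entries.
-/

namespace H64.EP

open Finset

/-- The axioms of a length function on a commutative ring. -/
structure IsLen {A : Type*} [CommRing A] (ν : A → ℝ) : Prop where
  nonneg : ∀ x, 0 ≤ ν x
  zero : ν 0 = 0
  one : ν 1 ≤ 1
  neg : ∀ x, ν (-x) = ν x
  add : ∀ x y, ν (x + y) ≤ ν x + ν y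
  mul : ∀ x y, ν (x * y) ≤ ν x * ν y

namespace IsLen

variable {A : Type*} [CommRing A] {ν : A → ℝ}

theorem sum_le (h : IsLen ν) {ι : Type*} (s : Finset ι) (f : ι → A) :
    ν (∑ i ∈ s, f i) ≤ ∑ i ∈ s, ν (f i) := by
  classical
  induction s using Finset.induction_on with
  | empty => simp [h.zero]
  | insert a s ha ih =>
    rw [Finset.sum_insert ha, Finset.sum_insert ha]
    exact (h.add _ _).trans (by linarith)

theorem prod_le (h : IsLen ν) {ι : Type*} (s : Finset ι) (f : ι → A) :
    ν (∏ i ∈ s, f i) ≤ ∏ i ∈ s, ν (f i) := by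
  classical
  induction s using Finset.induction_on with
  | empty => simpa using h.one
  | insert a s ha ih =>
    rw [Finset.prod_insert ha, Finset.prod_insert ha]
    exact (h.mul _ _).trans (mul_le_mul_of_nonneg_left ih (h.nonneg _))

theorem sign_smul (h : IsLen ν) {n : Type*} [Fintype n] [DecidableEq n]
    (σ : Equiv.Perm n) (x : A) : ν (Equiv.Perm.sign σ • x) = ν x := by
  rcases Int.units_eq_one_or (Equiv.Perm.sign σ) with hs | hs
  · simp [hs]
  · simp [hs, h.neg]

/-- The length of a determinant is at most the product of the row sums. -/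
theorem det_le (h : IsLen ν) {n : Type*} [Fintype n] [DecidableEq n] (M : Matrix n n A) :
    ν M.det ≤ ∏ i, ∑ j, ν (M i j) := by
  classical
  have h1 : M.det = ∑ σ : Equiv.Perm n, Equiv.Perm.sign σ • ∏ i, M i (σ i) := by
    rw [← Matrix.det_transpose, Matrix.det_apply]
    rfl
  rw [h1]
  calc ν (∑ σ : Equiv.Perm n, Equiv.Perm.sign σ • ∏ i, M i (σ i))
      ≤ ∑ σ : Equiv.Perm n, ν (Equiv.Perm.sign σ • ∏ i, M i (σ i)) := h.sum_le _ _
    _ ≤ ∑ σ : Equiv.Perm n, ∏ i, ν (M i (σ i)) := by
        refine Finset.sum_le_sum fun σ _ => ?_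
        rw [h.sign_smul]
        exact h.prod_le _ _
    _ ≤ ∑ f : n → n, ∏ i, ν (M i (f i)) := by
        have : ∑ σ : Equiv.Perm n, ∏ i, ν (M i (σ i)) =
            ∑ f ∈ (Finset.univ : Finset (Equiv.Perm n)).map
              (⟨fun (σ : Equiv.Perm n) => (σ : n → n), fun _ _ hab => DFunLike.coe_injective hab⟩ :
                Equiv.Perm n ↪ (n → n)), ∏ i, ν (M i (f i)) := by
          rw [Finset.sum_map]; rfl
        rw [this]
        exact Finset.sum_le_sum_of_subset_of_nonneg (Finset.subset_univ _)
          fun f _ _ => Finset.prod_nonneg fun i _ => h.nonneg _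
    _ = ∏ i, ∑ j, ν (M i j) := by
        rw [Finset.prod_univ_sum]
        simp [Fintype.piFinset_univ]

/-- A bound with all row sums at most `B`. -/
theorem det_le_pow (h : IsLen ν) {n : Type*} [Fintype n] [DecidableEq n] (M : Matrix n n A)
    (B : ℝ) (hB : ∀ i, ∑ j, ν (M i j) ≤ B) : ν M.det ≤ B ^ Fintype.card n := by
  refine (h.det_le M).trans ?_
  calc ∏ i, ∑ j, ν (M i j) ≤ ∏ _i : n, B :=
        Finset.prod_le_prod (fun i _ => Finset.sum_nonneg fun j _ => h.nonneg _) fun i _ => hB i
    _ = B ^ Fintype.card n := by simp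

end IsLen

theorem isLen_abs : IsLen (fun x : ℝ => |x|) where
  nonneg := abs_nonneg
  zero := abs_zero
  one := by simp
  neg := abs_neg
  add := abs_add_le
  mul := fun x y => (abs_mul x y).le

theorem isLen_norm : IsLen (fun x : ℂ => ‖x‖) where
  nonneg := norm_nonneg
  zero := norm_zero
  one := by simp
  neg := norm_neg
  add := norm_add_le
  mul := fun x y => (norm_mul x y).le

/-! ### The length of a polynomial with integer coefficients -/

open MvPolynomial

/-- The sum of the absolute values of the coefficients. -/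
noncomputable def len {σ : Type*} (P : MvPolynomial σ ℤ) : ℝ :=
  ∑ m ∈ P.support, |((P.coeff m : ℤ) : ℝ)|

theorem len_nonneg {σ : Type*} (P : MvPolynomial σ ℤ) : 0 ≤ len P :=
  Finset.sum_nonneg fun _ _ => abs_nonneg _

theorem len_eq_of_subset {σ : Type*} (P : MvPolynomial σ ℤ) (s : Finset (σ →₀ ℕ))
    (hs : P.support ⊆ s) : len P = ∑ m ∈ s, |((P.coeff m : ℤ) : ℝ)| := by
  unfold len
  refine Finset.sum_subset hs fun m _ hm => ?_
  rw [MvPolynomial.notMem_support_iff.1 hm]
  simp

@[simp] theorem len_zero {σ : Type*} : len (0 : MvPolynomial σ ℤ) = 0 := by simp [len]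

theorem len_neg {σ : Type*} (P : MvPolynomial σ ℤ) : len (-P) = len P := by
  unfold len
  rw [MvPolynomial.support_neg]
  simp

theorem len_add {σ : Type*} (P Q : MvPolynomial σ ℤ) : len (P + Q) ≤ len P + len Q := by
  classical
  rw [len_eq_of_subset (P + Q) (P.support ∪ Q.support) MvPolynomial.support_add,
    len_eq_of_subset P (P.support ∪ Q.support) Finset.subset_union_left,
    len_eq_of_subset Q (P.support ∪ Q.support) Finset.subset_union_right,
    ← Finset.sum_add_distrib]
  refine Finset.sum_le_sum fun m _ => ?_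
  rw [MvPolynomial.coeff_add]
  push_cast
  exact abs_add_le _ _

theorem len_monomial {σ : Type*} (m : σ →₀ ℕ) (c : ℤ) :
    len (monomial m c) = |(c : ℝ)| := by
  classical
  by_cases hc : c = 0
  · simp [hc]
  · unfold len
    rw [MvPolynomial.support_monomial, if_neg hc]
    simp

theorem len_sum {σ ι : Type*} (s : Finset ι) (f : ι → MvPolynomial σ ℤ) :
    len (∑ i ∈ s, f i) ≤ ∑ i ∈ s, len (f i) := by
  classical
  induction s using Finset.induction_on with
  | empty => simp
  | insert a s ha ih =>
    rw [Finset.sum_insert ha, Finset.sum_insert ha]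
    exact (len_add _ _).trans (by linarith)

theorem len_monomial_mul {σ : Type*} (m : σ →₀ ℕ) (c : ℤ) (Q : MvPolynomial σ ℤ) :
    len (monomial m c * Q) ≤ |(c : ℝ)| * len Q := by
  classical
  have : monomial m c * Q = ∑ k ∈ Q.support, monomial (m + k) (c * Q.coeff k) := by
    conv_lhs => rw [Q.as_sum, Finset.mul_sum]
    exact Finset.sum_congr rfl fun k _ => by rw [monomial_mul]
  rw [this]
  refine (len_sum _ _).trans ?_
  unfold len
  rw [Finset.mul_sum]
  refine Finset.sum_le_sum fun k _ => ?_
  have := len_monomial (m + k) (c * Q.coeff k)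
  unfold len at this
  rw [this]
  push_cast
  rw [abs_mul]

theorem len_mul {σ : Type*} (P Q : MvPolynomial σ ℤ) : len (P * Q) ≤ len P * len Q := by
  classical
  have : P * Q = ∑ m ∈ P.support, monomial m (P.coeff m) * Q := by
    conv_lhs => rw [P.as_sum, Finset.sum_mul]
  rw [this]
  refine (len_sum _ _).trans ?_
  calc ∑ m ∈ P.support, len (monomial m (P.coeff m) * Q)
      ≤ ∑ m ∈ P.support, |((P.coeff m : ℤ) : ℝ)| * len Q :=
        Finset.sum_le_sum fun m _ => len_monomial_mul _ _ _
    _ = len P * len Q := by rw [← Finset.sum_mul]; rfl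

theorem len_one {σ : Type*} : len (1 : MvPolynomial σ ℤ) = 1 := by
  have := len_monomial (σ := σ) 0 1
  simpa using this

theorem isLen_len {σ : Type*} : IsLen (fun P : MvPolynomial σ ℤ => len P) where
  nonneg := len_nonneg
  zero := len_zero
  one := len_one.le
  neg := len_neg
  add := len_add
  mul := len_mul

theorem len_X_mul {σ : Type*} (i : σ) (Q : MvPolynomial σ ℤ) : len (X i * Q) ≤ len Q := by
  have := len_monomial_mul (Finsupp.single i 1) 1 Q
  simpa [MvPolynomial.X] using this

/-- The value of a polynomial at a point with coordinates of size at most `B`. -/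
theorem abs_eval_le {σ : Type*} (P : MvPolynomial σ ℤ) (x : σ → ℝ) (B : ℝ)
    (hB : 1 ≤ B) (hx : ∀ i, |x i| ≤ B) (d : ℕ) (hd : P.totalDegree ≤ d) :
    |MvPolynomial.aeval x P| ≤ len P * B ^ d := by
  classical
  rw [MvPolynomial.aeval_def, MvPolynomial.eval₂_eq]
  refine (Finset.abs_sum_le_sum_abs _ _).trans ?_
  unfold len
  rw [Finset.sum_mul]
  refine Finset.sum_le_sum fun m hm => ?_
  rw [abs_mul]
  have h1 : |(algebraMap ℤ ℝ) (P.coeff m)| = |((P.coeff m : ℤ) : ℝ)| := by simp
  rw [h1]
  refine mul_le_mul_of_nonneg_left ?_ (abs_nonneg _)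
  rw [Finset.abs_prod]
  have h2 : ∏ i ∈ m.support, |x i ^ m i| ≤ ∏ i ∈ m.support, B ^ m i := by
    refine Finset.prod_le_prod (fun i _ => abs_nonneg _) fun i _ => ?_
    rw [abs_pow]
    exact pow_le_pow_left₀ (abs_nonneg _) (hx i) _
  refine h2.trans ?_
  rw [Finset.prod_pow_eq_pow_sum]
  refine pow_le_pow_right₀ hB ?_
  have := MvPolynomial.le_totalDegree hm
  exact this.trans hd

end H64.EP
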