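import Pool.Agent.H64.EP.Part

/-!
The norm: for `R(U, Z, T)` and `b ≥ 1` the polynomial `N(U, W, T)`, `W = Z^b`, the determinant of
the multiplication by `R` on the module with basis `1, Z, .., Z^(b-1)`.
-/

namespace H64.EP

open MvPolynomial Finset

/-- The matrix of the multiplication by `R` (a weighted circulant matrix). -/
noncomputable def mat (b : ℕ) (R : P3) : Matrix (Fin b) (Fin b) P3 := fun i j =>
  if (i : ℕ) ≤ j then part b (j - i) R else X 1 * part b (b + j - i) R

/-- The norm of `R`. -/
noncomputable def nm (b : ℕ) (R : P3) : P3 := (mat b R).det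

theorem phi_X_one (b : ℕ) : phi b (X 1) = X 1 ^ b := by simp [phi]

/-- The eigenvector equation. -/
theorem mat_eigen (b : ℕ) (hb : 0 < b) (R : P3) (i : Fin b) :
    X 1 ^ (i : ℕ) * R = ∑ j : Fin b, phi b (mat b R i j) * X 1 ^ (j : ℕ) := by
  classical
  have hi : (i : ℕ) < b := i.2
  set F : ℕ → P3 := fun j => (if (i : ℕ) ≤ j then phi b (part b (j - i) R) else
    phi b (X 1 * part b (b + j - i) R)) * X 1 ^ j with hF
  have h1 : ∑ j : Fin b, phi b (mat b R i j) * X 1 ^ (j : ℕ) = ∑ j ∈ Finset.range b, F j := by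
    rw [Finset.sum_range]
    refine Finset.sum_congr rfl fun j _ => ?_
    simp only [hF, mat]
    split_ifs <;> rfl
  have h2 : X 1 ^ (i : ℕ) * R =
      ∑ s ∈ Finset.range b, phi b (part b s R) * X 1 ^ (s + (i : ℕ)) := by
    conv_lhs => rw [sum_part b hb R, Finset.mul_sum]
    refine Finset.sum_congr rfl fun s _ => ?_
    rw [pow_add]; ring
  rw [h1, h2, Finset.range_eq_Ico,
    ← Finset.sum_Ico_consecutive (fun s => phi b (part b s R) * X 1 ^ (s + (i : ℕ)))
      (Nat.zero_le (b - i)) (Nat.sub_le b i),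
    ← Finset.sum_Ico_consecutive F (Nat.zero_le (i : ℕ)) hi.le, add_comm]
  congr 1
  · rw [Finset.sum_Ico_eq_sum_range, Finset.sum_Ico_eq_sum_range]
    have : b - (b - (i : ℕ)) = (i : ℕ) - 0 := by omega
    rw [this]
    refine Finset.sum_congr rfl fun k hk => ?_
    have hk' : k < (i : ℕ) := by simpa using hk
    simp only [hF, zero_add]
    rw [if_neg (by omega), map_mul, phi_X_one]
    have e1 : b - (i : ℕ) + k = b + k - i := by omega
    have e2 : b - (i : ℕ) + k + i = b + k := by omega
    rw [e2, e1, pow_add]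
    ring
  · rw [Finset.sum_Ico_eq_sum_range, Finset.sum_Ico_eq_sum_range]
    refine Finset.sum_congr (by simp) fun k _ => ?_
    simp only [hF, zero_add]
    rw [if_pos (by omega)]
    have e1 : (i : ℕ) + k - i = k := by omega
    rw [e1, add_comm k]

theorem nm_ne_zero (b : ℕ) (hb : 0 < b) (R : P3) (hR : R ≠ 0) : nm b R ≠ 0 := by
  classical
  intro h
  obtain ⟨w, hw, hwM⟩ := (Matrix.exists_vecMul_eq_zero_iff (M := mat b R)).2 h
  have hS : (∑ i : Fin b, phi b (w i) * X 1 ^ (i : ℕ)) * R = 0 := by
    rw [Finset.sum_mul]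
    calc ∑ i : Fin b, phi b (w i) * X 1 ^ (i : ℕ) * R
        = ∑ i : Fin b, ∑ j : Fin b, phi b (w i * mat b R i j) * X 1 ^ (j : ℕ) := by
          refine Finset.sum_congr rfl fun i _ => ?_
          rw [mul_assoc, mat_eigen b hb R i, Finset.mul_sum]
          refine Finset.sum_congr rfl fun j _ => ?_
          rw [map_mul]; ring
      _ = ∑ j : Fin b, phi b (∑ i : Fin b, w i * mat b R i j) * X 1 ^ (j : ℕ) := by
          rw [Finset.sum_comm]
          refine Finset.sum_congr rfl fun j _ => ?_
          rw [map_sum, Finset.sum_mul]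
      _ = 0 := by
          refine Finset.sum_eq_zero fun j _ => ?_
          have : ∑ i : Fin b, w i * mat b R i j = 0 := by
            have := congrFun hwM j
            simpa [Matrix.vecMul, dotProduct] using this
          rw [this]; simp
  have hS0 : ∑ i : Fin b, phi b (w i) * X 1 ^ (i : ℕ) = 0 := by
    rcases mul_eq_zero.1 hS with h' | h'
    · exact h'
    · exact absurd h' hR
  apply hw
  funext t
  have h3 := congrArg (part b (t : ℕ)) hS0
  rw [map_sum, map_zero] at h3
  rw [Finset.sum_eq_single t] at h3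
  · rw [part_phi_mul b t t hb t.2, if_pos rfl] at h3
    simpa using h3
  · intro i _ hi
    rw [part_phi_mul b i t hb i.2, if_neg (fun h' => hi (Fin.ext h'))]
  · intro h'; exact absurd (Finset.mem_univ _) h'

/-! ### Lengths and degrees -/

theorem part_eq (b s : ℕ) (R : P3) :
    part b s R = ∑ m ∈ R.support.filter (fun m => m 1 % b = s),
      monomial (setMid m (m 1 / b)) (R.coeff m) := by
  classical
  conv_lhs => rw [R.as_sum, map_sum]
  rw [Finset.sum_filter]
  exact Finset.sum_congr rfl fun m _ => part_monomial _ _ _ _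

/-- The part of the length belonging to the class `s`. -/
noncomputable def plen (b s : ℕ) (R : P3) : ℝ :=
  ∑ m ∈ R.support.filter (fun m => m 1 % b = s), |((R.coeff m : ℤ) : ℝ)|

theorem plen_nonneg (b s : ℕ) (R : P3) : 0 ≤ plen b s R :=
  Finset.sum_nonneg fun _ _ => abs_nonneg _

theorem sum_plen (b : ℕ) (hb : 0 < b) (R : P3) : ∑ s ∈ Finset.range b, plen b s R = len R := by
  classical
  unfold plen len
  exact Finset.sum_fiberwise_of_maps_to (fun m _ => Finset.mem_range.2 (Nat.mod_lt _ hb)) _

theorem len_part (b s : ℕ) (R : P3) : len (part b s R) ≤ plen b s R := by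
  classical
  rw [part_eq]
  refine (len_sum _ _).trans (Finset.sum_le_sum fun m _ => ?_)
  rw [len_monomial]

/-- Sums along a row are sums over the classes. -/
theorem row_sum (b : ℕ) (i : Fin b) (f : ℕ → ℝ) :
    ∑ j : Fin b, f (if (i : ℕ) ≤ j then j - i else b + j - i) = ∑ s ∈ Finset.range b, f s := by
  classical
  have hi : (i : ℕ) < b := i.2
  set F : ℕ → ℝ := fun j => f (if (i : ℕ) ≤ j then j - i else b + j - i) with hF
  have h1 : ∑ j : Fin b, f (if (i : ℕ) ≤ j then j - i else b + j - i) =
      ∑ j ∈ Finset.range b, F j := by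
    rw [Finset.sum_range]
  rw [h1, Finset.range_eq_Ico,
    ← Finset.sum_Ico_consecutive f (Nat.zero_le (b - i)) (Nat.sub_le b i),
    ← Finset.sum_Ico_consecutive F (Nat.zero_le (i : ℕ)) hi.le, add_comm]
  congr 1
  · rw [Finset.sum_Ico_eq_sum_range, Finset.sum_Ico_eq_sum_range]
    refine Finset.sum_congr (by simp) fun k _ => ?_
    simp only [hF]
    rw [if_pos (by omega)]
    congr 1; omega
  · rw [Finset.sum_Ico_eq_sum_range, Finset.sum_Ico_eq_sum_range]
    have : b - (b - (i : ℕ)) = (i : ℕ) - 0 := by omega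
    rw [this]
    refine Finset.sum_congr rfl fun k hk => ?_
    have hk' : k < (i : ℕ) := by simpa using hk
    simp only [hF, zero_add]
    rw [if_neg (by omega)]
    congr 1; omega

theorem len_mat (b : ℕ) (R : P3) (i j : Fin b) :
    len (mat b R i j) ≤ plen b (if (i : ℕ) ≤ j then j - i else b + j - i) R := by
  unfold mat
  split_ifs
  · exact len_part _ _ _
  · exact (len_X_mul _ _).trans (len_part _ _ _)

theorem len_nm (b : ℕ) (hb : 0 < b) (R : P3) : len (nm b R) ≤ len R ^ b := by
  have := isLen_len.det_le_pow (mat b R) (len R) (fun i => by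
    calc ∑ j, len (mat b R i j)
        ≤ ∑ j : Fin b, plen b (if (i : ℕ) ≤ j then j - i else b + j - i) R :=
          Finset.sum_le_sum fun j _ => len_mat b R i j
      _ = len R := by rw [row_sum b i (fun s => plen b s R), sum_plen b hb R])
  simpa [nm] using this

end H64.EP
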