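import Pool.Agent.H64.EP.Norm

/-!
Values and degrees of the norm.
-/

namespace H64.EP

open MvPolynomial Finset

/-- The point `(u, z^b, t)`. -/
def pw {K : Type*} [CommRing K] (b : ℕ) (x : Fin 3 → K) : Fin 3 → K :=
  fun i => if i = 1 then x 1 ^ b else x i

theorem mat_eigen_val {K : Type*} [CommRing K] (b : ℕ) (hb : 0 < b) (R : P3) (x : Fin 3 → K)
    (i : Fin b) :
    ∑ j : Fin b, aeval (pw b x) (mat b R i j) * x 1 ^ (j : ℕ) =
      aeval x R * x 1 ^ (i : ℕ) := by
  have h := congrArg (aeval x) (mat_eigen b hb R i)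
  rw [map_mul, map_pow, aeval_X, map_sum] at h
  rw [mul_comm (aeval x R), h]
  refine Finset.sum_congr rfl fun j _ => ?_
  rw [map_mul, aeval_phi, map_pow, aeval_X]
  rfl

/-- The cofactor matrix. -/
noncomputable def cofMat {K : Type*} [CommRing K] (b : ℕ) (hb : 0 < b) (R : P3)
    (x : Fin 3 → K) : Matrix (Fin b) (Fin b) K :=
  ((mat b R).map (aeval (pw b x))).updateCol ⟨0, hb⟩ (fun j => x 1 ^ (j : ℕ))

theorem nm_val {K : Type*} [CommRing K] (b : ℕ) (hb : 0 < b) (R : P3) (x : Fin 3 → K) :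
    aeval (pw b x) (nm b R) = aeval x R * (cofMat b hb R x).det := by
  classical
  set A : Matrix (Fin b) (Fin b) K := (mat b R).map (aeval (pw b x)) with hA
  set v : Fin b → K := fun j => x 1 ^ (j : ℕ) with hv
  have h1 : aeval (pw b x) (nm b R) = A.det := by
    unfold nm
    rw [hA, ← AlgHom.mapMatrix_apply, ← AlgHom.map_det]
  have h2 : A.mulVec v = aeval x R • v := by
    funext i
    simp only [Matrix.mulVec, dotProduct, Pi.smul_apply, smul_eq_mul, hv, hA, Matrix.map_apply]
    exact mat_eigen_val b hb R x i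
  have h3 : A.adjugate.mulVec (A.mulVec v) = A.det • v := by
    rw [Matrix.mulVec_mulVec, Matrix.adjugate_mul, Matrix.smul_mulVec, Matrix.one_mulVec]
  rw [h2, Matrix.mulVec_smul, ← Matrix.cramer_eq_adjugate_mulVec] at h3
  have h4 := congrFun h3 ⟨0, hb⟩
  simp only [Pi.smul_apply, smul_eq_mul, Matrix.cramer_apply] at h4
  rw [h1]
  have h5 : v ⟨0, hb⟩ = 1 := by simp [hv]
  rw [h5, mul_one] at h4
  rw [← h4]
  rfl

/-- Bound for the values of the parts. -/
theorem abs_part_le (b s : ℕ) (R : P3) (x : Fin 3 → ℝ) (B : ℝ)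
    (hB : 1 ≤ B) (hx : ∀ i, |x i| ≤ B) (d : ℕ) (hd : R.totalDegree ≤ d) :
    |aeval (pw b x) (part b s R)| ≤ plen b s R * B ^ d := by
  classical
  rw [part_eq, map_sum]
  refine (Finset.abs_sum_le_sum_abs _ _).trans ?_
  unfold plen
  rw [Finset.sum_mul]
  refine Finset.sum_le_sum fun m hm => ?_
  have hm' : m ∈ R.support := (Finset.mem_filter.1 hm).1
  rw [aeval_monomial, Finsupp.prod_fintype _ _ (by simp), abs_mul]
  have h1 : |(algebraMap ℤ ℝ) (R.coeff m)| = |((R.coeff m : ℤ) : ℝ)| := by simp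
  rw [h1]
  refine mul_le_mul_of_nonneg_left ?_ (abs_nonneg _)
  rw [Fin.prod_univ_three]
  have e0 : pw b x 0 = x 0 := by simp [pw]
  have e1 : pw b x 1 = x 1 ^ b := by simp [pw]
  have e2 : pw b x 2 = x 2 := by simp [pw]
  have f0 : setMid m (m 1 / b) 0 = m 0 := by simp [setMid]
  have f1 : setMid m (m 1 / b) 1 = m 1 / b := by simp [setMid]
  have f2 : setMid m (m 1 / b) 2 = m 2 := by simp [setMid]
  rw [e0, e1, e2, f0, f1, f2, ← pow_mul, abs_mul, abs_mul, abs_pow, abs_pow, abs_pow]
  have B0 : 0 ≤ B := by linarith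
  have g0 : |x 0| ^ m 0 ≤ B ^ m 0 := pow_le_pow_left₀ (abs_nonneg _) (hx 0) _
  have g1 : |x 1| ^ (b * (m 1 / b)) ≤ B ^ (m 1) :=
    (pow_le_pow_left₀ (abs_nonneg _) (hx 1) _).trans
      (pow_le_pow_right₀ hB (Nat.mul_div_le _ _))
  have g2 : |x 2| ^ m 2 ≤ B ^ m 2 := pow_le_pow_left₀ (abs_nonneg _) (hx 2) _
  calc |x 0| ^ m 0 * |x 1| ^ (b * (m 1 / b)) * |x 2| ^ m 2
      ≤ B ^ m 0 * B ^ m 1 * B ^ m 2 := by
        refine mul_le_mul (mul_le_mul g0 g1 (by positivity) (by positivity)) g2 (by positivity)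
          (by positivity)
    _ = B ^ (m 0 + m 1 + m 2) := by rw [pow_add, pow_add]
    _ ≤ B ^ d := by
        refine pow_le_pow_right₀ hB ?_
        have := MvPolynomial.le_totalDegree hm'
        rw [Finsupp.sum_fintype _ _ (by simp), Fin.sum_univ_three] at this
        exact this.trans hd

theorem one_le_len (R : P3) (hR : R ≠ 0) : 1 ≤ len R := by
  classical
  obtain ⟨m, hm⟩ := MvPolynomial.support_nonempty.2 hR
  have h1 : (1 : ℝ) ≤ |((R.coeff m : ℤ) : ℝ)| := by
    have h0 : R.coeff m ≠ 0 := MvPolynomial.mem_support_iff.1 hm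
    have : (1 : ℤ) ≤ |R.coeff m| := Int.one_le_abs h0
    exact_mod_cast this
  refine h1.trans ?_
  exact Finset.single_le_sum (f := fun m => |((R.coeff m : ℤ) : ℝ)|)
    (fun i _ => abs_nonneg _) hm

/-- The norm at `(u, z^b, t)` is the value of `R` at `(u, z, t)` times a controlled number. -/
theorem abs_nm_le (b : ℕ) (hb : 0 < b) (R : P3) (hR : R ≠ 0) (x : Fin 3 → ℝ) (B : ℝ)
    (hB : 1 ≤ B) (hx : ∀ i, |x i| ≤ B) (d : ℕ) (hd : R.totalDegree ≤ d) :
    |aeval (pw b x) (nm b R)| ≤ |aeval x R| * (2 * len R * B ^ (d + b)) ^ b := by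
  classical
  have B0 : 0 ≤ B := by linarith
  rw [nm_val b hb, abs_mul]
  refine mul_le_mul_of_nonneg_left ?_ (abs_nonneg _)
  have hrow : ∀ i, ∑ j, |cofMat b hb R x i j| ≤ 2 * len R * B ^ (d + b) := by
    intro i
    have h1 : ∀ j, |cofMat b hb R x i j| ≤
        (if j = (⟨0, hb⟩ : Fin b) then B ^ (d + b) else 0) +
        plen b (if (i : ℕ) ≤ j then j - i else b + j - i) R * B ^ (d + b) := by
      intro j
      unfold cofMat
      rw [Matrix.updateCol_apply]
      by_cases hj : j = (⟨0, hb⟩ : Fin b)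
      · rw [if_pos hj, if_pos hj]
        have : |x 1 ^ (i : ℕ)| ≤ B ^ (d + b) := by
          rw [abs_pow]
          exact (pow_le_pow_left₀ (abs_nonneg _) (hx 1) _).trans
            (pow_le_pow_right₀ hB (by omega))
        have h2 : 0 ≤ plen b (if (i : ℕ) ≤ j then j - i else b + j - i) R * B ^ (d + b) :=
          mul_nonneg (plen_nonneg _ _ _) (by positivity)
        linarith
      · rw [if_neg hj, if_neg hj, zero_add, Matrix.map_apply]
        unfold mat
        split_ifs with hij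
        · refine (abs_part_le b _ R x B hB hx d hd).trans ?_
          exact mul_le_mul_of_nonneg_left (pow_le_pow_right₀ hB (by omega)) (plen_nonneg _ _ _)
        · rw [map_mul, aeval_X, abs_mul]
          have e1 : |pw b x 1| ≤ B ^ b := by
            simp only [pw, if_true]
            rw [abs_pow]
            exact pow_le_pow_left₀ (abs_nonneg _) (hx 1) _
          calc |pw b x 1| * |aeval (pw b x) (part b (b + j - i) R)|
              ≤ B ^ b * (plen b (b + j - i) R * B ^ d) :=
                mul_le_mul e1 (abs_part_le b _ R x B hB hx d hd) (abs_nonneg _) (by positivity)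
            _ = plen b (b + j - i) R * B ^ (d + b) := by rw [pow_add]; ring
    calc ∑ j, |cofMat b hb R x i j|
        ≤ ∑ j, ((if j = (⟨0, hb⟩ : Fin b) then B ^ (d + b) else 0) +
          plen b (if (i : ℕ) ≤ j then j - i else b + j - i) R * B ^ (d + b)) :=
          Finset.sum_le_sum fun j _ => h1 j
      _ = B ^ (d + b) + len R * B ^ (d + b) := by
          rw [Finset.sum_add_distrib, ← Finset.sum_mul,
            row_sum b i (fun s => plen b s R), sum_plen b hb R]
          simp
      _ ≤ 2 * len R * B ^ (d + b) := by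
          have h1 := one_le_len R hR
          have h2 : 0 ≤ B ^ (d + b) := by positivity
          nlinarith
  have := isLen_abs.det_le_pow (cofMat b hb R x) (2 * len R * B ^ (d + b)) hrow
  simpa using this

/-! ### Degrees -/

/-- If all exponents of the factors satisfy additive bounds, so do those of the product. -/
theorem supp_prod {ι : Type*} (s : Finset ι) (f : ι → P3) (g : (Fin 3 →₀ ℕ) →+ ℤ)
    (β : ι → ℤ) (h : ∀ i ∈ s, ∀ n ∈ (f i).support, g n ≤ β i) :
    ∀ n ∈ (∏ i ∈ s, f i).support, g n ≤ ∑ i ∈ s, β i := by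
  classical
  induction s using Finset.induction_on with
  | empty =>
    intro n hn
    rw [Finset.prod_empty] at hn
    have h1 : (1 : P3).support ⊆ {0} := by
      rw [show (1 : P3) = monomial 0 1 from rfl]
      exact MvPolynomial.support_monomial_subset
    have := Finset.mem_singleton.1 (h1 hn)
    simp [this]
  | insert a s ha ih =>
    intro n hn
    rw [Finset.prod_insert ha] at hn
    obtain ⟨p, hp, q, hq, rfl⟩ := Finset.mem_add.1 (MvPolynomial.support_mul _ _ hn)
    rw [map_add, Finset.sum_insert ha]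
    exact add_le_add (h a (Finset.mem_insert_self _ _) p hp)
      (ih (fun i hi => h i (Finset.mem_insert_of_mem hi)) q hq)

theorem supp_det {n : ℕ} (M : Matrix (Fin n) (Fin n) P3) (g : (Fin 3 →₀ ℕ) →+ ℤ)
    (β : Fin n → Fin n → ℤ) (c : ℤ) (h : ∀ i j, ∀ m ∈ (M i j).support, g m ≤ β i j)
    (hβ : ∀ σ : Equiv.Perm (Fin n), ∑ i, β i (σ i) ≤ c) :
    ∀ m ∈ M.det.support, g m ≤ c := by
  classical
  intro m hm
  have h1 : M.det = ∑ σ : Equiv.Perm (Fin n), Equiv.Perm.sign σ • ∏ i, M i (σ i) := by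
    rw [← Matrix.det_transpose, Matrix.det_apply]
    rfl
  rw [h1] at hm
  obtain ⟨σ, -, hσ⟩ := Finset.mem_biUnion.1 (MvPolynomial.support_sum hm)
  have h2 : m ∈ (∏ i, M i (σ i)).support := by
    rcases Int.units_eq_one_or (Equiv.Perm.sign σ) with hs | hs
    · simpa [hs] using hσ
    · rw [hs] at hσ
      simpa [MvPolynomial.support_neg] using hσ
  exact (supp_prod Finset.univ (fun i => M i (σ i)) g (fun i => β i (σ i))
    (fun i _ => h i (σ i)) m h2).trans (hβ σ)

theorem supp_part {b s : ℕ} {R : P3} {n : Fin 3 →₀ ℕ} (hn : n ∈ (part b s R).support) :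
    ∃ m ∈ R.support, m 1 % b = s ∧ n = setMid m (m 1 / b) := by
  classical
  rw [part_eq] at hn
  obtain ⟨m, hm, h⟩ := Finset.mem_biUnion.1 (MvPolynomial.support_sum hn)
  rw [Finset.mem_filter] at hm
  exact ⟨m, hm.1, hm.2, Finset.mem_singleton.1 (MvPolynomial.support_monomial_subset h)⟩

theorem supp_mat {b : ℕ} (hb : 0 < b) {R : P3} {i j : Fin b} {n : Fin 3 →₀ ℕ}
    (hn : n ∈ (mat b R i j).support) :
    ∃ m ∈ R.support, b * n 1 + j = m 1 + i ∧ n 0 = m 0 ∧ n 2 = m 2 ∧ n 1 ≤ m 1 := by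
  classical
  have hi : (i : ℕ) < b := i.2
  unfold mat at hn
  split_ifs at hn with hij
  · obtain ⟨m, hm, hs, rfl⟩ := supp_part hn
    refine ⟨m, hm, ?_, by simp [setMid], by simp [setMid], ?_⟩
    · rw [setMid_one]
      have := Nat.div_add_mod (m 1) b
      omega
    · rw [setMid_one]; exact Nat.div_le_self _ _
  · obtain ⟨p, hp, q, hq, rfl⟩ := Finset.mem_add.1 (MvPolynomial.support_mul _ _ hn)
    obtain ⟨m, hm, hs, rfl⟩ := supp_part hq
    have hp' : p = Finsupp.single 1 1 := by
      rw [MvPolynomial.support_X] at hp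
      exact Finset.mem_singleton.1 hp
    subst hp'
    refine ⟨m, hm, ?_, by simp [setMid], by simp [setMid], ?_⟩
    · have := Nat.div_add_mod (m 1) b
      simp only [Finsupp.add_apply, Finsupp.single_eq_same, setMid_one]
      rw [mul_add, mul_one]
      omega
    · simp only [Finsupp.add_apply, Finsupp.single_eq_same, setMid_one]
      have h1 := Nat.div_add_mod (m 1) b
      have h2 : m 1 / b ≤ b * (m 1 / b) := Nat.le_mul_of_pos_left _ hb
      omega

/-- The degree of the norm in `W` is at most the degree of `R` in `Z`. -/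
theorem nm_degW (b : ℕ) (hb : 0 < b) (R : P3) (D : ℕ) (hD : ∀ m ∈ R.support, m 1 ≤ D) :
    ∀ n ∈ (nm b R).support, n 1 ≤ D := by
  classical
  intro n hn
  let g : (Fin 3 →₀ ℕ) →+ ℤ :=
    { toFun := fun n => (b : ℤ) * n 1
      map_zero' := by simp
      map_add' := by intro p q; push_cast [Finsupp.add_apply]; ring }
  have h := supp_det (mat b R) g (fun i j => (D : ℤ) + i - j) ((b : ℤ) * D) (by
      intro i j m hm
      obtain ⟨k, hk, h1, -, -, -⟩ := supp_mat hb hm
      have h2 := hD k hk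
      show (b : ℤ) * m 1 ≤ D + i - j
      have h3 : ((b * m 1 + j : ℕ) : ℤ) = ((k 1 + i : ℕ) : ℤ) := by exact_mod_cast h1
      push_cast at h3
      have h4 : ((k 1 : ℕ) : ℤ) ≤ D := by exact_mod_cast h2
      linarith) (by
      intro σ
      have : ∑ i : Fin b, ((D : ℤ) + i - (σ i : Fin b)) = (b : ℤ) * D := by
        rw [Finset.sum_sub_distrib, Finset.sum_add_distrib]
        have h5 : ∑ i : Fin b, (((σ i : Fin b) : ℕ) : ℤ) = ∑ i : Fin b, (((i : Fin b) : ℕ) : ℤ) :=
          Equiv.sum_comp σ (fun i : Fin b => ((i : ℕ) : ℤ))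
        rw [h5]
        simp
      exact this.le) n hn
  have h6 : (b : ℤ) * n 1 ≤ b * D := h
  have h7 : ((n 1 : ℕ) : ℤ) ≤ D := le_of_mul_le_mul_left h6 (by exact_mod_cast hb)
  exact_mod_cast h7

/-- The total degree of the norm in `U` and `T`, for any weights `p`, `q` of the two variables. -/
theorem nm_degUT (b : ℕ) (hb : 0 < b) (R : P3) (p q D : ℕ)
    (hD : ∀ m ∈ R.support, p * m 0 + q * m 2 ≤ D) :
    ∀ n ∈ (nm b R).support, p * n 0 + q * n 2 ≤ b * D := by
  classical
  intro n hn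
  let g : (Fin 3 →₀ ℕ) →+ ℤ :=
    { toFun := fun n => (p : ℤ) * n 0 + q * n 2
      map_zero' := by simp
      map_add' := by intro p q; push_cast [Finsupp.add_apply]; ring }
  have h := supp_det (mat b R) g (fun _ _ => (D : ℤ)) ((b : ℤ) * D) (by
      intro i j m hm
      obtain ⟨k, hk, -, h0, h2, -⟩ := supp_mat hb hm
      have h3 := hD k hk
      show (p : ℤ) * m 0 + q * m 2 ≤ D
      rw [h0, h2]
      exact_mod_cast h3) (by
      intro σ
      simp) n hn
  have h6 : (p : ℤ) * n 0 + q * n 2 ≤ b * D := h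
  exact_mod_cast h6

end H64.EP
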