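import Pool.Agent.H64.EP.Len

/-!
The decomposition of a polynomial in three variables `U, Z, T` along the powers of `Z` modulo `b`:
`R(U, Z, T) = ∑_{s<b} R_s(U, Z^b, T) Z^s`.
-/

namespace H64.EP

open MvPolynomial Finset

/-- Polynomials in three variables, `X 0 = U`, `X 1 = Z` (or `W`), `X 2 = T`. -/
abbrev P3 := MvPolynomial (Fin 3) ℤ

/-- The exponent vector with the middle exponent replaced. -/
noncomputable def setMid (m : Fin 3 →₀ ℕ) (k : ℕ) : Fin 3 →₀ ℕ := m.update 1 k

theorem setMid_one (m : Fin 3 →₀ ℕ) (k : ℕ) : setMid m k 1 = k := by simp [setMid]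

theorem setMid_setMid (m : Fin 3 →₀ ℕ) (k l : ℕ) : setMid (setMid m k) l = setMid m l := by
  simp [setMid]

theorem setMid_self (m : Fin 3 →₀ ℕ) : setMid m (m 1) = m := by simp [setMid]

/-- `s`-th part modulo `b`. -/
noncomputable def part (b s : ℕ) : P3 →ₗ[ℤ] P3 :=
  (MvPolynomial.basisMonomials (Fin 3) ℤ).constr ℤ fun m =>
    if m 1 % b = s then monomial (setMid m (m 1 / b)) 1 else 0

theorem part_monomial (b s : ℕ) (m : Fin 3 →₀ ℕ) (c : ℤ) :
    part b s (monomial m c) =
      if m 1 % b = s then monomial (setMid m (m 1 / b)) c else 0 := by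
  have h0 : (monomial m c : P3) = c • (monomial m 1 : P3) := by
    rw [MvPolynomial.smul_monomial]; simp
  have h1 : (monomial m 1 : P3) = MvPolynomial.basisMonomials (Fin 3) ℤ m := by
    simp [MvPolynomial.coe_basisMonomials]
  rw [h0, map_smul, h1]
  unfold part
  rw [Module.Basis.constr_basis]
  split_ifs
  · rw [MvPolynomial.smul_monomial]; simp
  · simp

/-- Substitution `W ↦ Z^b`. -/
noncomputable def phi (b : ℕ) : P3 →+* P3 :=
  (MvPolynomial.aeval (R := ℤ) (fun i : Fin 3 => if i = 1 then (X 1 : P3) ^ b else X i)).toRingHom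

theorem phi_monomial (b : ℕ) (m : Fin 3 →₀ ℕ) (c : ℤ) :
    phi b (monomial m c) = monomial (setMid m (b * m 1)) c := by
  unfold phi
  simp only [AlgHom.toRingHom_eq_coe, RingHom.coe_coe, MvPolynomial.aeval_monomial]
  rw [Finsupp.prod_fintype _ _ (by simp)]
  simp only [Fin.prod_univ_three, Fin.isValue]
  have e : (monomial (setMid m (b * m 1)) c : P3) =
      C c * (X 0 ^ (m 0) * X 1 ^ (b * m 1) * X 2 ^ (m 2)) := by
    rw [MvPolynomial.monomial_eq, Finsupp.prod_fintype _ _ (by simp)]
    simp only [Fin.prod_univ_three]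
    simp [setMid]
  rw [e]
  simp [pow_mul]

theorem part_phi_mul (b s t : ℕ) (hb : 0 < b) (hs : s < b) (w : P3) :
    part b t (phi b w * X 1 ^ s) = if s = t then w else 0 := by
  classical
  induction w using MvPolynomial.induction_on' with
  | monomial m c =>
    rw [phi_monomial]
    have h1 : (monomial (setMid m (b * m 1)) c * X 1 ^ s : P3) =
        monomial (setMid m (b * m 1 + s)) c := by
      rw [MvPolynomial.X_pow_eq_monomial, MvPolynomial.monomial_mul, mul_one]
      have : setMid m (b * m 1) + Finsupp.single 1 s = setMid m (b * m 1 + s) := by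
        ext i
        fin_cases i <;> simp [setMid]
      rw [this]
    rw [h1, part_monomial, setMid_one, setMid_setMid]
    have h2 : (b * m 1 + s) % b = s := by
      rw [Nat.mul_add_mod, Nat.mod_eq_of_lt hs]
    have h3 : (b * m 1 + s) / b = m 1 := by
      rw [Nat.mul_add_div hb, Nat.div_eq_of_lt hs, add_zero]
    rw [h2, h3, setMid_self]
  | add p q hp hq =>
    rw [map_add, add_mul, map_add, hp, hq]
    split_ifs <;> simp

theorem sum_part (b : ℕ) (hb : 0 < b) (R : P3) :
    R = ∑ s ∈ Finset.range b, phi b (part b s R) * X 1 ^ s := by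
  classical
  induction R using MvPolynomial.induction_on' with
  | monomial m c =>
    have hmod : m 1 % b < b := Nat.mod_lt _ hb
    rw [Finset.sum_eq_single (m 1 % b)]
    · rw [part_monomial, if_pos rfl, phi_monomial, setMid_one, setMid_setMid,
        MvPolynomial.X_pow_eq_monomial, MvPolynomial.monomial_mul, mul_one]
      have : setMid m (b * (m 1 / b)) + Finsupp.single 1 (m 1 % b) = m := by
        ext i
        fin_cases i
        · simp [setMid]
        · simp [setMid, Nat.div_add_mod]
        · simp [setMid]
      rw [this]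
    · intro s _ hs
      rw [part_monomial, if_neg (fun h => hs h.symm)]
      simp
    · intro h
      exact absurd (Finset.mem_range.2 hmod) h
  | add p q hp hq =>
    conv_lhs => rw [hp, hq]
    rw [← Finset.sum_add_distrib]
    refine Finset.sum_congr rfl fun s _ => ?_
    rw [map_add, map_add]
    ring

/-- Values: the substitution `W ↦ Z^b`. -/
theorem aeval_phi {K : Type*} [CommRing K] (b : ℕ) (x : Fin 3 → K) (w : P3) :
    aeval x (phi b w) = aeval (fun i => if i = 1 then x 1 ^ b else x i) w := by
  classical
  induction w using MvPolynomial.induction_on with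
  | C a => simp [phi]
  | add p q hp hq => rw [map_add, map_add, map_add, hp, hq]
  | mul_X p i hp =>
    rw [map_mul, map_mul, map_mul, hp]
    congr 1
    by_cases hi : i = 1
    · subst hi
      simp [phi]
    · simp [phi, hi]

end H64.EP
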